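import Pool.Agent.Helper61.Ek.EStep

/-! # The expansion phase, from the expansion step -/

set_option autoImplicit false
set_option linter.unusedSectionVars false

namespace Pool.Agent.Helper61.Ek

open Finset Pool.Agent.Lead.Ek

/-- Chains with their length. -/
inductive Ch {α : Type} [DecidableEq α] [Fintype α] :
    ℕ → Set (Finset α) → Set (Finset α) → Prop
  | refl (K : Set (Finset α)) : Ch 0 K K
  | head (n : ℕ) (K K1 L : Set (Finset α)) (h : Mv 3 0 K K1) (h' : Ch n K1 L) : Ch (n + 1) K L

section

variable {α β : Type} [DecidableEq α] [DecidableEq β] [Fintype α] [Fintype β]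

theorem ch_of_star {K L : Set (Finset α)} (h : MvStar 3 0 K L) : ∃ n, Ch n K L := by
  unfold MvStar at h
  induction h using Relation.ReflTransGen.head_induction_on with
  | refl => exact ⟨0, Ch.refl _⟩
  | head h _ ih =>
    obtain ⟨n, hn⟩ := ih
    exact ⟨n + 1, Ch.head _ _ _ _ h hn⟩

theorem ch_sub {n : ℕ} {K L : Set (Finset α)} (h : Ch n K L) : K ⊆ L := by
  induction h with
  | refl K => exact subset_rfl
  | head n K K1 L h _ ih =>
    obtain ⟨τ, v, _, _, _, _, _, _, rfl⟩ := h
    exact Set.subset_union_left.trans ih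

theorem lift_chain (s : α ↪ β) {n : ℕ} {K L : Set (Finset α)} (h : Ch n K L) :
    ∀ K' : Set (Finset β), (∀ X : Finset α, X.map s ∈ K' ↔ X ∈ K) → Ch n K' (K' ∪ push s L) := by
  induction h with
  | refl K =>
    intro K' hK'
    have : K' ∪ push s K = K' := by
      apply Set.union_eq_left.2
      rintro X ⟨Y, hY, rfl⟩
      exact (hK' Y).2 hY
    rw [this]
    exact Ch.refl _
  | head n K K1 L h h' ih =>
    intro K' hK'
    have hsub := ch_sub h'
    obtain ⟨τ, v, hv, h3, h0, hτ, hvτ, hf, rfl⟩ := h
    have e : K' ∪ push s L = (K' ∪ {τ.map s, insert (s v) (τ.map s)}) ∪ push s L := by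
      apply le_antisymm
      · exact Set.union_subset_union_left _ Set.subset_union_left
      · apply Set.union_subset _ Set.subset_union_right
        apply Set.union_subset Set.subset_union_left
        rintro X (rfl | rfl)
        · exact Or.inr ⟨τ, hsub (Or.inr (Or.inl rfl)), rfl⟩
        · exact Or.inr ⟨insert v τ, hsub (Or.inr (Or.inr rfl)), by rw [map_insert]⟩
    rw [e]
    refine Ch.head _ _ (K' ∪ {τ.map s, insert (s v) (τ.map s)}) _ ?_ (ih _ ?_)
    · refine ⟨τ.map s, s v, ?_, ?_, Nat.zero_le _, ?_, ?_, ?_, rfl⟩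
      · rwa [mem_map' s]
      · rwa [card_map]
      · rwa [hK']
      · rw [← map_insert, hK']; exact hvτ
      · intro t ht
        obtain ⟨u, hu, rfl⟩ := mem_map.1 ht
        rw [← map_erase, ← map_insert, hK']
        exact hf u hu
    · intro X
      simp only [Set.mem_union, Set.mem_insert_iff, Set.mem_singleton_iff, hK']
      rw [← map_insert, map_inj, map_inj]

theorem ne_map (s : α ↪ β) {K : Set (Finset α)} {R : Finset α} (h : NE K R) :
    ∀ (K' : Set (Finset β)), (∀ X ⊆ R, (X.map s ∈ K' ↔ X ∈ K)) → NE K' (R.map s) := by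
  induction h with
  | irr K R x hx h =>
    intro K' hK'
    refine NE.irr _ _ (s x) (mem_map_of_mem _ hx) fun X hX => ?_
    rw [← map_erase] at hX
    obtain ⟨Y, hY, rfl⟩ := subset_map_iff.1 hX
    have h1 : Y ⊆ R := hY.trans (erase_subset _ _)
    rw [← map_insert, hK' _ h1, hK' _ (insert_subset hx h1)]
    exact h Y hY
  | split K R x hx h0 h1 ih0 ih1 =>
    intro K' hK'
    refine NE.split _ _ (s x) (mem_map_of_mem _ hx) ?_ ?_
    · rw [← map_erase]
      exact ih0 _ fun X hX => hK' X (hX.trans (erase_subset _ _))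
    · rw [← map_erase]
      refine ih1 _ fun X hX => ?_
      show insert (s x) (X.map s) ∈ K' ↔ insert x X ∈ K
      rw [← map_insert]
      exact hK' _ (insert_subset hx (hX.trans (erase_subset _ _)))

theorem red_map (s : α ↪ β) {K : Set (Finset α)} {R R0 : Finset α} (h : Red K R R0) :
    ∀ (K' : Set (Finset β)), (∀ X ⊆ R, (X.map s ∈ K' ↔ X ∈ K)) → Red K' (R.map s) (R0.map s) := by
  induction h with
  | refl R => intro K' _; exact Red.refl _
  | step R R0 x hx hx0 h _ ih =>
    intro K' hK'
    refine Red.step _ _ (s x) (mem_map_of_mem _ hx) (by rwa [mem_map' s]) ?_ ?_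
    · rw [← map_erase]
      refine ne_map s h _ fun X hX => ?_
      show insert (s x) (X.map s) ∈ K' ↔ insert x X ∈ K
      rw [← map_insert]
      exact hK' _ (insert_subset hx (hX.trans (erase_subset _ _)))
    · rw [← map_erase]
      exact ih _ fun X hX => hK' X (hX.trans (erase_subset _ _))

theorem red_congr {K L : Set (Finset α)} {R R0 : Finset α} (h : Red K R R0)
    (hKL : ∀ X ⊆ R, ∀ x ∈ R, x ∉ R0 → (insert x X ∈ K ↔ insert x X ∈ L)) : Red L R R0 := by
  induction h with
  | refl R => exact Red.refl _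
  | step R R0 x hx hx0 h _ ih =>
    refine Red.step _ _ x hx hx0 (ne_congr h fun X hX => ?_) (ih fun X hX y hy hy0 => ?_)
    · exact hKL X (hX.trans (erase_subset _ _)) x hx hx0
    · exact hKL X (hX.trans (erase_subset _ _)) y (mem_of_mem_erase hy) hy0

end

theorem ephase (hStep : P4_EStep) (hBlow : P5_blowup) : ∀ (n : ℕ) (G : Type) [Group G]
    [Fintype G] [DecidableEq G]
    (K L : Set (Finset G)), Cx K → LInv K → ∅ ∈ K → univ ∉ K → Ch n K L →
    ∃ (G' : Type) (_ : Group G') (_ : Fintype G') (_ : DecidableEq G')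
      (K' : Set (Finset G')) (s : G ↪ G'),
      Cx K' ∧ LInv K' ∧ (∀ X ∈ K', 3 ≤ Xᶜ.card) ∧ 3 ≤ (univ.map s)ᶜ.card ∧
      (∀ X : Finset G, X.map s ∈ K' ↔ X ∈ L) ∧ Red K' univ (univ.map s) := by
  intro n
  induction n with
  | zero =>
    intro G _ _ _ K L hK hL h0 hu h
    cases h
    exact hBlow 3 G K hK hL h0 hu
  | succ n ih =>
    intro G _ _ _ K L hK hL h0 hu h
    cases h with
    | head _ _ K1 _ h h' =>
      have hK1 : K ⊆ K1 := by
        obtain ⟨τ, v, _, _, _, _, _, _, rfl⟩ := h
        exact Set.subset_union_left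
      obtain ⟨G1, _, _, _, K1', s1, hc, hl, h31, h32, hm, hr⟩ := hStep G K K1 hK hL h0 hu h
      have h01 : ∅ ∈ K1' := by
        have := (hm ∅).2 (hK1 h0)
        rwa [map_empty] at this
      have hu1 : univ ∉ K1' := by
        intro hc
        have := h31 _ hc
        simp at this
      obtain ⟨G2, _, _, _, K2, s2, hc2, hl2, h312, h322, hm2, hr2⟩ :=
        ih G1 K1' _ hc hl h01 hu1 (lift_chain s1 h' K1' hm)
      have hmL : ∀ X : Finset G, X.map s1 ∈ K1' ∪ push s1 L ↔ X ∈ L := by
        intro X
        constructor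
        · rintro (h | ⟨Y, hY, he⟩)
          · exact ch_sub h' ((hm X).1 h)
          · rwa [map_inj.1 he]
        · intro h
          exact Or.inr ⟨X, h, rfl⟩
      have hr1 : Red (K1' ∪ push s1 L) univ (univ.map s1) := by
        refine red_congr hr fun X _ x _ hx => ?_
        constructor
        · intro h; exact Or.inl h
        · rintro (h | ⟨Y, hY, he⟩)
          · exact h
          · exfalso
            apply hx
            have : x ∈ Y.map s1 := by rw [← he]; exact mem_insert_self _ _
            exact map_subset_map.2 (subset_univ _) this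
      refine ⟨G2, _, _, _, K2, s1.trans s2, hc2, hl2, h312, ?_, ?_, ?_⟩
      · refine h322.trans (card_le_card (compl_subset_compl.2 ?_))
        rw [← map_map]
        exact map_subset_map.2 (subset_univ _)
      · intro X
        rw [← map_map, hm2, hmL]
      · rw [← map_map]
        refine red_trans hr2 (map_subset_map.2 (subset_univ _)) ?_
        exact red_map s2 hr1 K2 fun X _ => hm2 X

theorem P5_EPhase_of (hStep : P4_EStep) (hBlow : P5_blowup) : P5_EPhase := by
  intro G _ _ _ K L hK hL h0 hu h
  obtain ⟨n, hn⟩ := ch_of_star h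
  exact ephase hStep hBlow n G K L hK hL h0 hu hn

end Pool.Agent.Helper61.Ek
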