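import Pool.Agent.Lead.Ek.Defs

/-! # The expansion step (second independent proof) -/

set_option autoImplicit false
set_option linter.unusedSectionVars false
set_option linter.unusedVariables false

namespace Pool.Agent.Helper61.Ek

open Finset Pool.Agent.Lead.Ek

section General

variable {α : Type} [DecidableEq α]

theorem ne_congr {K : Set (Finset α)} {R : Finset α} (h : NE K R) :
    ∀ {L : Set (Finset α)}, (∀ X ⊆ R, (X ∈ K ↔ X ∈ L)) → NE L R := by
  induction h with
  | irr K R x hx h =>
    intro L hL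
    refine NE.irr L R x hx fun X hX => ?_
    have h1 : X ⊆ R := hX.trans (erase_subset _ _)
    have h2 : insert x X ⊆ R := insert_subset hx h1
    rw [← hL X h1, ← hL _ h2]
    exact h X hX
  | split K R x hx h0 h1 ih0 ih1 =>
    intro L hL
    refine NE.split L R x hx (ih0 fun X hX => hL X (hX.trans (erase_subset _ _)))
      (ih1 fun X hX => ?_)
    have h1 : X ⊆ R := hX.trans (erase_subset _ _)
    exact hL _ (insert_subset hx h1)

theorem ne_query (Q : Finset α) : ∀ (K : Set (Finset α)) (R : Finset α), Q ⊆ R →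
    (∀ Y ⊆ Q, NE {X : Finset α | X ∪ Y ∈ K} (R \ Q)) → NE K R := by
  induction Q using Finset.induction_on with
  | empty =>
    intro K R _ h
    have := h ∅ (subset_refl _)
    rw [sdiff_empty] at this
    exact ne_congr this fun X _ => by simp
  | insert q Q hq ih =>
    intro K R hQR h
    have hqR : q ∈ R := hQR (mem_insert_self _ _)
    have hQR' : Q ⊆ R.erase q := by
      intro y hy
      exact mem_erase.2 ⟨fun e => hq (e ▸ hy), hQR (mem_insert_of_mem hy)⟩
    have e1 : (R.erase q) \ Q = R \ insert q Q := by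
      ext y; simp [mem_sdiff, mem_erase, mem_insert]; tauto
    refine NE.split K R q hqR (ih K _ hQR' fun Y hY => ?_) (ih _ _ hQR' fun Y hY => ?_)
    · rw [e1]
      exact h Y (hY.trans (subset_insert _ _))
    · rw [e1]
      refine ne_congr (h (insert q Y) (insert_subset_insert _ hY)) fun X _ => ?_
      simp only [Set.mem_ofPred_eq]
      rw [union_insert]

theorem red_of_forall (K : Set (Finset α)) (R0 : Finset α) :
    ∀ (n : ℕ) (R : Finset α), (R \ R0).card = n → R0 ⊆ R →
    (∀ R1, R0 ⊆ R1 → R1 ⊆ R → ∀ x ∈ R1, x ∉ R0 →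
      NE {X : Finset α | insert x X ∈ K} (R1.erase x)) → Red K R R0 := by
  intro n
  induction n with
  | zero =>
    intro R hc hR _
    have : R = R0 := by
      apply le_antisymm _ hR
      rw [card_eq_zero, sdiff_eq_empty_iff_subset] at hc
      exact hc
    rw [this]
    exact Red.refl _
  | succ n ih =>
    intro R hc hR h
    have hne : (R \ R0).Nonempty := by
      rw [← card_pos]; omega
    obtain ⟨x, hx⟩ := hne
    rw [mem_sdiff] at hx
    have hR' : R0 ⊆ R.erase x := fun y hy => mem_erase.2 ⟨fun e => hx.2 (e ▸ hy), hR hy⟩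
    refine Red.step R R0 x hx.1 hx.2 (h R hR (subset_refl _) x hx.1 hx.2) (ih _ ?_ hR' ?_)
    · have : (R.erase x) \ R0 = (R \ R0).erase x := by
        ext y; simp only [mem_sdiff, mem_erase]; tauto
      rw [this, card_erase_of_mem (mem_sdiff.2 hx), hc]
      rfl
    · intro R1 h1 h2
      exact h R1 h1 (h2.trans (erase_subset _ _))

theorem red_trans {K : Set (Finset α)} {R R1 : Finset α} (h : Red K R R1) :
    ∀ {R0 : Finset α}, R0 ⊆ R1 → Red K R1 R0 → Red K R R0 := by
  induction h with
  | refl R => intro R0 _ h; exact h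
  | step R R1 x hx hx0 h _ ih =>
    intro R0 h01 h'
    exact Red.step R R0 x hx (fun hx' => hx0 (h01 hx')) h (ih h01 h')

end General

section Step

variable {G : Type} [Group G] [Fintype G] [DecidableEq G]

abbrev C3 : Type := Multiplicative (ZMod 3)

abbrev GG (G : Type) : Type := G × ((G ⊕ G) → C3) × G

/-- The generator of the coordinate `i`. -/
def e (i : G ⊕ G) : (G ⊕ G) → C3 := fun j => if i = j then Multiplicative.ofAdd 1 else 1

/-- The special elements. -/
def a (v : G) : G ⊕ G → GG G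
  | Sum.inl g => (g, e (Sum.inl g), g)
  | Sum.inr c => (v, e (Sum.inr c), c)

theorem a_snd (v : G) (i : G ⊕ G) : (a v i).2.1 = e i := by
  cases i <;> rfl

theorem sidon (v : G) {γ γ' : GG G} {i j i' j' : G ⊕ G} (h : γ * a v i = γ' * a v j)
    (h' : γ * a v i' = γ' * a v j') (hne : i ≠ i') : γ = γ' := by
  have h1 : γ.2.1 i * e i i = γ'.2.1 i * e j i := by
    have := congrFun (congrArg (fun z : GG G => z.2.1) h) i
    simpa [a_snd] using this
  have h2 : γ.2.1 i * e i' i = γ'.2.1 i * e j' i := by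
    have := congrFun (congrArg (fun z : GG G => z.2.1) h') i
    simpa [a_snd] using this
  have hi : (e i i : C3) = Multiplicative.ofAdd 1 := by simp [e]
  have hi' : (e i' i : C3) = 1 := by simp [e, Ne.symm hne]
  rw [hi] at h1
  rw [hi', mul_one] at h2
  have hij : j = i := by
    by_contra hc
    have hj : (e j i : C3) = 1 := by simp [e, hc]
    rw [hj, mul_one] at h1
    rw [← h1] at h2
    have h3 : (1 : C3) = Multiplicative.ofAdd 1 * e j' i := by
      have : γ.2.1 i * 1 = γ.2.1 i * (Multiplicative.ofAdd 1 * e j' i) := by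
        rw [mul_one, ← mul_assoc]; exact h2
      exact mul_left_cancel this
    unfold e at h3
    split_ifs at h3 <;> revert h3 <;> decide
  rw [hij] at h
  exact mul_right_cancel h

theorem a_inj (v : G) : Function.Injective (a v) := by
  intro i j h
  have h1 : (e i i : C3) = e j i := by
    have := congrFun (congrArg (fun z : GG G => z.2.1) h) i
    simpa [a_snd] using this
  by_contra hc
  have h2 : (e i i : C3) = Multiplicative.ofAdd 1 := by simp [e]
  have h3 : (e j i : C3) = 1 := by simp [e, Ne.symm hc]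
  rw [h2, h3] at h1
  revert h1; decide

/-- The embedding of `G`. -/
def s : G ↪ GG G := ⟨fun g => (g, e (Sum.inl g), g), fun g g' h => by
  exact congrArg Prod.fst h⟩

theorem s_apply (v g : G) : s g = a v (Sum.inl g) := rfl

/-- The base block: `s (τ + v)` and all copies of `v`. -/
def B (v : G) (τ : Finset G) : Finset (GG G) :=
  ((insert v τ).image (fun g => a v (Sum.inl g))) ∪ univ.image (fun c => a v (Sum.inr c))

/-- Translate of a set. -/
def tr (γ : GG G) (X : Finset (GG G)) : Finset (GG G) := X.image (fun x => γ * x)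

theorem mem_tr {γ x : GG G} {X : Finset (GG G)} : x ∈ tr γ X ↔ ∃ y ∈ X, γ * y = x := by
  simp only [tr, mem_image]

/-- The new complex. -/
def K' (K : Set (Finset G)) (v : G) (τ : Finset G) : Set (Finset (GG G)) :=
  {X | X.image Prod.fst ∈ K ∨ ∃ γ : GG G, X ⊆ tr γ (B v τ)}

variable {K : Set (Finset G)} {v : G} {τ : Finset G}

theorem mem_B {x : GG G} : x ∈ B v τ ↔
    (∃ g, (g = v ∨ g ∈ τ) ∧ a v (Sum.inl g) = x) ∨ ∃ c, a v (Sum.inr c) = x := by
  simp only [B, mem_union, mem_image, mem_insert, mem_univ, true_and]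

theorem B_form {x : GG G} (h : x ∈ B v τ) : ∃ i, a v i = x := by
  rcases mem_B.1 h with ⟨g, _, h⟩ | ⟨c, h⟩
  · exact ⟨_, h⟩
  · exact ⟨_, h⟩

/-- Two different common elements of two translates of the base block force equality. -/
theorem eq_of_two {γ γ' x y : GG G} (hxy : x ≠ y) (h1 : ∃ i, γ * a v i = x)
    (h2 : ∃ i, γ' * a v i = x) (h3 : ∃ i, γ * a v i = y) (h4 : ∃ i, γ' * a v i = y) :
    γ = γ' := by
  obtain ⟨i, hi⟩ := h1
  obtain ⟨j, hj⟩ := h2
  obtain ⟨i', hi'⟩ := h3
  obtain ⟨j', hj'⟩ := h4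
  refine sidon v (hi.trans hj.symm) (hi'.trans hj'.symm) ?_
  rintro rfl
  exact hxy (hi.symm.trans hi')

theorem tr_form {γ x : GG G} (h : x ∈ tr γ (B v τ)) : ∃ i, γ * a v i = x := by
  obtain ⟨y, hy, h⟩ := mem_tr.1 h
  obtain ⟨i, hi⟩ := B_form hy
  exact ⟨i, by rw [hi, h]⟩

theorem cx_K' (hK : Cx K) : Cx (K' K v τ) := by
  rintro X (h | ⟨γ, h⟩) Y hY
  · exact Or.inl (hK _ h _ (image_subset_image hY))
  · exact Or.inr ⟨γ, hY.trans h⟩

theorem linv_K' (hK : LInv K) : LInv (K' K v τ) := by
  rintro g X (h | ⟨γ, h⟩)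
  · left
    have := hK g.1 _ h
    rw [image_image] at this ⊢
    exact this
  · right
    refine ⟨g * γ, ?_⟩
    intro y hy
    obtain ⟨x, hx, rfl⟩ := mem_image.1 hy
    obtain ⟨z, hz, rfl⟩ := mem_tr.1 (h hx)
    exact mem_tr.2 ⟨z, hz, by rw [mul_assoc]⟩

/-- The crucial membership fact. -/
theorem fst_mem (hK : Cx K) (hL : LInv K) (hf : ∀ t ∈ τ, insert v (τ.erase t) ∈ K)
    {γ : GG G} {Z : Finset (GG G)} (h : Z ⊆ tr γ (B v τ))
    {t : G} (ht : t ∈ τ) (h' : γ * s t ∉ Z) (htv : v ∉ τ) : Z.image Prod.fst ∈ K := by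
  refine hK _ (hL γ.1 _ (hf t ht)) _ ?_
  intro y hy
  obtain ⟨z, hz, rfl⟩ := mem_image.1 hy
  obtain ⟨w, hw, rfl⟩ := mem_tr.1 (h hz)
  rw [mem_image]
  rcases mem_B.1 hw with ⟨g, hg, rfl⟩ | ⟨c, rfl⟩
  · refine ⟨g, ?_, rfl⟩
    rcases hg with rfl | hg
    · exact mem_insert_self _ _
    · refine mem_insert_of_mem (mem_erase.2 ⟨?_, hg⟩)
      rintro rfl
      exact h' hz
  · exact ⟨v, mem_insert_self _ _, rfl⟩

/-- A set containing a translate of `s τ` does not project to a face. -/
theorem fst_not_mem (hK : Cx K) (hL : LInv K) (hτ : τ ∉ K) {γ : GG G} {Z : Finset (GG G)}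
    (h : ∀ t ∈ τ, γ * s t ∈ Z) : Z.image Prod.fst ∉ K := by
  intro hZ
  apply hτ
  have h1 : τ.image (fun x => γ.1 * x) ∈ K := by
    refine hK _ hZ _ ?_
    intro y hy
    obtain ⟨t, ht, rfl⟩ := mem_image.1 hy
    exact mem_image.2 ⟨_, h t ht, rfl⟩
  have h2 := hL γ.1⁻¹ _ h1
  rw [image_image] at h2
  have h3 : ((fun x => γ.1⁻¹ * x) ∘ fun x => γ.1 * x) = id := by
    funext x; simp
  rwa [h3, image_id] at h2

theorem K'_mem_of_fst {X : Finset (GG G)} (h : X.image Prod.fst ∈ K) : X ∈ K' K v τ := Or.inl h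

/-- The colour of an element. -/
def col (x : GG G) : G := x.2.2

/-- Three elements of `τ`. -/
theorem three (h3 : 3 ≤ τ.card) : ∃ t1 ∈ τ, ∃ t2 ∈ τ, ∃ t3 ∈ τ, t1 ≠ t2 ∧ t1 ≠ t3 ∧ t2 ≠ t3 := by
  obtain ⟨t1, t2, t3, h1, h2, h3, h12, h13, h23⟩ := two_lt_card_iff.1 h3
  exact ⟨t1, h1, t2, h2, t3, h3, h12, h13, h23⟩

theorem sl (v : G) (γ : GG G) (t : G) : ∃ i, γ * a v i = γ * s t := ⟨Sum.inl t, rfl⟩

theorem s_ne (γ : GG G) {t t' : G} (h : t ≠ t') : γ * s t ≠ γ * s t' := by
  intro hc
  exact h (s.injective (mul_left_cancel hc))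

/-- Phase 1: the link of an element of colour `≠ 1` outside the special elements. -/
theorem phase1 (hK : Cx K) (hL : LInv K) (hv : v ∉ τ) (h3 : 3 ≤ τ.card) (hτ : τ ∉ K)
    (hf : ∀ t ∈ τ, insert v (τ.erase t) ∈ K) (R : Finset (GG G)) (x : GG G)
    (hR : ∀ y : GG G, col y = 1 → y ∈ R) (hx1 : col x ≠ 1) :
    NE {X : Finset (GG G) | insert x X ∈ K' K v τ} (R.erase x) := by
  classical
  set P : GG G → Prop := fun y => ∃ γ : GG G, x ∈ tr γ (B v τ) ∧ ∃ t ∈ τ, γ * s t = y with hP
  refine ne_query ((R.erase x).filter P) _ _ (filter_subset _ _) fun Y hY => ?_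
  obtain ⟨t1, ht1, t2, ht2, t3, ht3, h12, h13, h23⟩ := three h3
  by_cases hc : ∃ γ : GG G, x ∈ tr γ (B v τ) ∧ ∀ t ∈ τ, γ * s t ∈ insert x Y
  · obtain ⟨γ, hxγ, hγ⟩ := hc
    set p : GG G := γ * a v (Sum.inr (γ.2.2)⁻¹) with hp
    have hpc : col p = 1 := by
      show γ.2.2 * (γ.2.2)⁻¹ = 1
      exact mul_inv_cancel _
    have hpx : x ≠ p := by
      rintro h
      exact hx1 (h ▸ hpc)
    have hpB : p ∈ tr γ (B v τ) :=
      mem_tr.2 ⟨_, mem_B.2 (Or.inr ⟨_, rfl⟩), rfl⟩
    have hpQ : p ∈ (R.erase x) \ (R.erase x).filter P := by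
      rw [mem_sdiff, mem_filter, mem_erase]
      refine ⟨⟨hpx.symm, hR p hpc⟩, ?_⟩
      rintro ⟨_, γ', hxγ', t, ht, hpt⟩
      have hγγ : γ = γ' := eq_of_two hpx (tr_form hxγ) (tr_form hxγ') (tr_form hpB)
        ⟨Sum.inl t, hpt⟩
      rw [← hγγ, hp] at hpt
      have := a_inj v (mul_left_cancel hpt : a v (Sum.inl t) = _)
      cases this
    refine NE.irr _ _ p hpQ fun X hX => ?_
    have key : ∀ Z : Finset (GG G), insert x Y ⊆ Z →
        (Z ∈ K' K v τ ↔ Z ⊆ tr γ (B v τ)) := by
      intro Z hZ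
      have hsub : ∀ t ∈ τ, γ * s t ∈ Z := fun t ht => hZ (hγ t ht)
      constructor
      · rintro (h | ⟨γ', h⟩)
        · exact absurd h (fst_not_mem hK hL hτ hsub)
        · have : γ = γ' := eq_of_two (s_ne γ h12) (sl v γ t1) (tr_form (h (hsub t1 ht1)))
            (sl v γ t2) (tr_form (h (hsub t2 ht2)))
          rw [this]; exact h
      · intro h
        exact Or.inr ⟨γ, h⟩
    simp only [Set.mem_ofPred_eq]
    rw [key _ (insert_subset_insert _ subset_union_right),
      key _ (insert_subset_insert _ subset_union_right)]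
    constructor
    · intro h z hz
      rw [mem_insert, mem_union, mem_insert] at hz
      rcases hz with rfl | (rfl | hz) | hz
      · exact hxγ
      · exact hpB
      · exact h (mem_insert_of_mem (mem_union_left _ hz))
      · exact h (mem_insert_of_mem (mem_union_right _ hz))
    · intro h
      exact (insert_subset_insert _ (union_subset_union_left (subset_insert _ _))).trans h
  · push Not at hc
    set y : GG G := (x.1, x.2.1 * (fun _ => Multiplicative.ofAdd 1), 1) with hy
    have hyc : col y = 1 := rfl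
    have hyx : y ≠ x := by
      intro h
      exact hx1 (h ▸ hyc)
    have hyQ : y ∈ (R.erase x) \ (R.erase x).filter P := by
      rw [mem_sdiff, mem_filter, mem_erase]
      refine ⟨⟨hyx, hR y hyc⟩, ?_⟩
      rintro ⟨_, γ, hxγ, t, ht, hyt⟩
      obtain ⟨i, hi⟩ := tr_form hxγ
      have h1 : γ.2.1 i * e i i = x.2.1 i := by
        have := congrFun (congrArg (fun z : GG G => z.2.1) hi) i
        simpa [a_snd] using this
      have h2 : γ.2.1 i * e (Sum.inl t) i = x.2.1 i * Multiplicative.ofAdd 1 := by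
        have := congrFun (congrArg (fun z : GG G => z.2.1) hyt) i
        rw [s_apply v] at this
        simpa [a_snd, hy] using this
      rw [← h1, mul_assoc] at h2
      have h4 := mul_left_cancel h2
      have hi1 : (e i i : C3) = Multiplicative.ofAdd 1 := by simp [e]
      rw [hi1] at h4
      unfold e at h4
      split_ifs at h4 <;> revert h4 <;> decide
    have key : ∀ Z : Finset (GG G), Y ⊆ Z → Z ⊆ ((R.erase x) \ (R.erase x).filter P) ∪ Y →
        insert x Z ∈ K' K v τ → (insert x Z).image Prod.fst ∈ K := by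
      rintro Z hYZ hZ (h | ⟨γ, h⟩)
      · exact h
      · have hxγ := h (mem_insert_self _ _)
        obtain ⟨t, ht, hn⟩ := hc γ hxγ
        refine fst_mem hK hL hf h ht ?_ hv
        intro hm
        rw [mem_insert] at hm hn
        push Not at hn
        rcases hm with hm | hm
        · exact hn.1 hm
        · rcases mem_union.1 (hZ hm) with h5 | h5
          · rw [mem_sdiff, mem_filter] at h5
            exact h5.2 ⟨h5.1, γ, hxγ, t, ht, rfl⟩
          · exact hn.2 h5
    refine NE.irr _ _ y hyQ fun X hX => ?_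
    simp only [Set.mem_ofPred_eq]
    constructor
    · intro h
      have h6 := key (X ∪ Y) subset_union_right
        (union_subset_union_left (hX.trans (erase_subset _ _))) h
      left
      refine hK _ h6 _ ?_
      intro z hz
      obtain ⟨w, hw, rfl⟩ := mem_image.1 hz
      rw [mem_insert, mem_union, mem_insert] at hw
      rcases hw with rfl | (rfl | hw) | hw
      · exact mem_image_of_mem _ (mem_insert_self _ _)
      · exact mem_image.2 ⟨x, mem_insert_self _ _, rfl⟩
      · exact mem_image_of_mem _ (mem_insert_of_mem (mem_union_left _ hw))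
      · exact mem_image_of_mem _ (mem_insert_of_mem (mem_union_right _ hw))
    · intro h
      exact cx_K' hK _ h _ (insert_subset_insert _ (union_subset_union_left (subset_insert _ _)))

/-- Phase 2: elements of colour 1 outside the special elements. -/
theorem phase2 (hK : Cx K) (hL : LInv K) (hv : v ∉ τ) (h3 : 3 ≤ τ.card)
    (hf : ∀ t ∈ τ, insert v (τ.erase t) ∈ K) (R : Finset (GG G)) (x : GG G)
    (hR : ∀ i, a v i ∈ R) (hR2 : ∀ y ∈ R, (∃ i, a v i = y) ∨ col y = 1) (hxR : x ∈ R)
    (hx : ¬ ∃ i, a v i = x) :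
    NE {X : Finset (GG G) | insert x X ∈ K' K v τ} (R.erase x) := by
  obtain ⟨t1, ht1, t2, ht2, t3, ht3, h12, h13, h23⟩ := three h3
  have key : ∀ Z : Finset (GG G), Z ⊆ R → x ∈ Z → Z ∈ K' K v τ → Z.image Prod.fst ∈ K := by
    rintro Z hZ hxZ (h | ⟨γ, h⟩)
    · exact h
    · by_cases hall : ∀ t ∈ τ, γ * s t ∈ Z
      · exfalso
        -- at most one of the three elements has colour 1
        have hcol : ∀ t t' : G, t ≠ t' → col (γ * s t) = 1 → col (γ * s t') = 1 → False := by
          intro t t' hne h1 h2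
          apply hne
          have : γ.2.2 * t = γ.2.2 * t' := (h1 : γ.2.2 * t = 1).trans (h2 : γ.2.2 * t' = 1).symm
          exact mul_left_cancel this
        have hone : ∀ t t' : G, t ≠ t' → (∃ i, a v i = γ * s t) → (∃ i, a v i = γ * s t') →
            False := by
          rintro t t' hne ⟨i, hi⟩ ⟨j, hj⟩
          have : γ = 1 := eq_of_two (s_ne γ hne) (sl v γ t) ⟨i, by rw [one_mul]; exact hi⟩
            (sl v γ t') ⟨j, by rw [one_mul]; exact hj⟩
          rw [this] at h
          obtain ⟨i, hi⟩ := tr_form (h hxZ)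
          exact hx ⟨i, by rw [one_mul] at hi; exact hi⟩
        have d1 := hR2 _ (hZ (hall t1 ht1))
        have d2 := hR2 _ (hZ (hall t2 ht2))
        have d3 := hR2 _ (hZ (hall t3 ht3))
        rcases d1 with d1 | d1 <;> rcases d2 with d2 | d2 <;> rcases d3 with d3 | d3
        · exact hone _ _ h12 d1 d2
        · exact hone _ _ h12 d1 d2
        · exact hone _ _ h13 d1 d3
        · exact hcol _ _ h23 d2 d3
        · exact hone _ _ h23 d2 d3
        · exact hcol _ _ h13 d1 d3
        · exact hcol _ _ h12 d1 d2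
        · exact hcol _ _ h12 d1 d2
      · push Not at hall
        obtain ⟨t, ht, hn⟩ := hall
        exact fst_mem hK hL hf h ht hn hv
  have hsx : s x.1 ≠ x := fun h => hx ⟨Sum.inl x.1, h⟩
  refine NE.irr _ _ (s x.1) (mem_erase.2 ⟨hsx, hR (Sum.inl x.1)⟩) fun X hX => ?_
  have hX' : X ⊆ R := hX.trans ((erase_subset _ _).trans (erase_subset _ _))
  simp only [Set.mem_ofPred_eq]
  constructor
  · intro h
    have h6 := key _ (insert_subset hxR hX') (mem_insert_self _ _) h
    left
    refine hK _ h6 _ ?_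
    intro z hz
    obtain ⟨w, hw, rfl⟩ := mem_image.1 hz
    rw [mem_insert, mem_insert] at hw
    rcases hw with rfl | rfl | hw
    · exact mem_image_of_mem _ (mem_insert_self _ _)
    · exact mem_image.2 ⟨x, mem_insert_self _ _, rfl⟩
    · exact mem_image_of_mem _ (mem_insert_of_mem hw)
  · intro h
    exact cx_K' hK _ h _ (insert_subset_insert _ (subset_insert _ _))

/-- Phase 3: the copies of `v`. -/
theorem phase3 (hK : Cx K) (hL : LInv K) (hv : v ∉ τ) (h3 : 3 ≤ τ.card)
    (hf : ∀ t ∈ τ, insert v (τ.erase t) ∈ K) (R : Finset (GG G)) (x : GG G)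
    (hR : ∀ g, s g ∈ R) (hR2 : ∀ y ∈ R, (∃ i, a v i = y)) (hxR : x ∈ R)
    (hx : ¬ ∃ g, s g = x) :
    NE {X : Finset (GG G) | insert x X ∈ K' K v τ} (R.erase x) := by
  obtain ⟨t1, ht1, t2, ht2, t3, ht3, h12, h13, h23⟩ := three h3
  obtain ⟨i, hi⟩ := hR2 x hxR
  have hxv : x.1 = v := by
    rcases i with g | c
    · exact absurd ⟨g, hi⟩ hx
    · rw [← hi]; rfl
  have hsx : s v ≠ x := fun h => hx ⟨v, h⟩
  refine NE.irr _ _ (s v) (mem_erase.2 ⟨hsx, hR v⟩) fun X hX => ?_
  have hX' : X ⊆ R := hX.trans ((erase_subset _ _).trans (erase_subset _ _))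
  simp only [Set.mem_ofPred_eq]
  have himg : ∀ X : Finset (GG G), (insert x X).image Prod.fst ∈ K →
      (insert x (insert (s v) X)).image Prod.fst ∈ K := by
    intro X h6
    refine hK _ h6 _ ?_
    intro z hz
    obtain ⟨w, hw, rfl⟩ := mem_image.1 hz
    rw [mem_insert, mem_insert] at hw
    rcases hw with rfl | rfl | hw
    · exact mem_image_of_mem _ (mem_insert_self _ _)
    · exact mem_image.2 ⟨x, mem_insert_self _ _, hxv⟩
    · exact mem_image_of_mem _ (mem_insert_of_mem hw)
  constructor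
  · rintro (h | ⟨γ, h⟩)
    · exact Or.inl (himg X h)
    · by_cases hall : ∀ t ∈ τ, γ * s t ∈ insert x X
      · have hRx : insert x X ⊆ R := insert_subset hxR hX'
        have hγ : γ = 1 := by
          obtain ⟨i, hi⟩ := hR2 _ (hRx (hall t1 ht1))
          obtain ⟨j, hj⟩ := hR2 _ (hRx (hall t2 ht2))
          exact eq_of_two (s_ne γ h12) (sl v γ t1) ⟨i, by rw [one_mul]; exact hi⟩
            (sl v γ t2) ⟨j, by rw [one_mul]; exact hj⟩
        right
        refine ⟨γ, ?_⟩
        intro z hz
        rw [mem_insert, mem_insert] at hz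
        rcases hz with rfl | rfl | hz
        · exact h (mem_insert_self _ _)
        · rw [hγ]
          exact mem_tr.2 ⟨_, mem_B.2 (Or.inl ⟨v, Or.inl rfl, rfl⟩), by rw [one_mul]; rfl⟩
        · exact h (mem_insert_of_mem hz)
      · push Not at hall
        obtain ⟨t, ht, hn⟩ := hall
        exact Or.inl (himg X (fst_mem hK hL hf h ht hn hv))
  · intro h
    exact cx_K' hK _ h _ (insert_subset_insert _ (subset_insert _ _))

theorem red_K' (hK : Cx K) (hL : LInv K) (hv : v ∉ τ) (h3 : 3 ≤ τ.card) (hτ : τ ∉ K)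
    (hf : ∀ t ∈ τ, insert v (τ.erase t) ∈ K) :
    Red (K' K v τ) univ (univ.map (s : G ↪ GG G)) := by
  classical
  set A : Finset (GG G) := univ.filter (fun y => ∃ i, a v i = y) with hA
  set C : Finset (GG G) := univ.filter (fun y => (∃ i, a v i = y) ∨ col y = 1) with hC
  have r1 : Red (K' K v τ) univ C := by
    refine red_of_forall _ _ _ _ rfl (subset_univ _) fun R hCR _ x hxR hxC => ?_
    have hx : ¬ ((∃ i, a v i = x) ∨ col x = 1) := fun h => hxC (mem_filter.2 ⟨mem_univ _, h⟩)
    push Not at hx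
    exact phase1 hK hL hv h3 hτ hf R x
      (fun y hy => hCR (mem_filter.2 ⟨mem_univ _, Or.inr hy⟩)) hx.2
  have r2 : Red (K' K v τ) C A := by
    refine red_of_forall _ _ _ _ rfl ?_ fun R hAR hRC x hxR hxA => ?_
    · intro y hy
      exact mem_filter.2 ⟨mem_univ _, Or.inl (mem_filter.1 hy).2⟩
    · exact phase2 hK hL hv h3 hf R x (fun i => hAR (mem_filter.2 ⟨mem_univ _, i, rfl⟩))
        (fun y hy => (mem_filter.1 (hRC hy)).2) hxR (fun h => hxA (mem_filter.2 ⟨mem_univ _, h⟩))
  have hsA : univ.map (s : G ↪ GG G) ⊆ A := by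
    intro y hy
    obtain ⟨g, _, rfl⟩ := mem_map.1 hy
    exact mem_filter.2 ⟨mem_univ _, Sum.inl g, rfl⟩
  have hAC : A ⊆ C := by
    intro y hy
    exact mem_filter.2 ⟨mem_univ _, Or.inl (mem_filter.1 hy).2⟩
  have r3 : Red (K' K v τ) A (univ.map (s : G ↪ GG G)) := by
    refine red_of_forall _ _ _ _ rfl hsA fun R hsR hRA x hxR hxs => ?_
    exact phase3 hK hL hv h3 hf R x (fun g => hsR (mem_map_of_mem _ (mem_univ g)))
      (fun y hy => (mem_filter.1 (hRA hy)).2) hxR
      (fun ⟨g, hg⟩ => hxs (mem_map.2 ⟨g, mem_univ _, hg⟩))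
  exact red_trans r1 (hsA.trans hAC) (red_trans r2 hsA r3)

theorem map_mem_iff (hK : Cx K) (hL : LInv K) (h0 : ∅ ∈ K) (hv : v ∉ τ) (h3 : 3 ≤ τ.card)
    (hτ : τ ∉ K) (hf : ∀ t ∈ τ, insert v (τ.erase t) ∈ K) (X : Finset G) :
    X.map (s : G ↪ GG G) ∈ K' K v τ ↔ X ∈ K ∪ {τ, insert v τ} := by
  have himg : (X.map (s : G ↪ GG G)).image Prod.fst = X := by
    ext g
    simp only [mem_image, mem_map]
    constructor
    · rintro ⟨_, ⟨g', hg', rfl⟩, rfl⟩
      exact hg'
    · intro h
      exact ⟨_, ⟨g, h, rfl⟩, rfl⟩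
  constructor
  · rintro (h | ⟨γ, h⟩)
    · left; rwa [himg] at h
    · by_cases hall : ∀ t ∈ τ, γ * s t ∈ X.map s
      · obtain ⟨t1, ht1, t2, ht2, t3, ht3, h12, h13, h23⟩ := three h3
        have hγ : γ = 1 := by
          obtain ⟨i, _, hi⟩ := mem_map.1 (hall t1 ht1)
          obtain ⟨j, _, hj⟩ := mem_map.1 (hall t2 ht2)
          exact eq_of_two (v := v) (s_ne γ h12) (sl v γ t1)
            ⟨Sum.inl i, by rw [one_mul]; exact hi⟩ (sl v γ t2)
            ⟨Sum.inl j, by rw [one_mul]; exact hj⟩
        rw [hγ] at h hall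
        have h4 : τ ⊆ X := by
          intro t ht
          have := hall t ht
          rw [one_mul] at this
          obtain ⟨g, hg, he⟩ := mem_map.1 this
          rwa [← s.injective he]
        have h5 : X ⊆ insert v τ := by
          intro g hg
          obtain ⟨w, hw, he⟩ := mem_tr.1 (h (mem_map_of_mem _ hg))
          rw [one_mul] at he
          rw [he] at hw
          rcases mem_B.1 hw with ⟨g', hg', he'⟩ | ⟨c, he'⟩
          · have : g' = g := congrArg Prod.fst he'
            rw [← this, mem_insert]; exact hg'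
          · have h7 : a v (Sum.inr c) = a v (Sum.inl g) := he'
            have h8 := a_inj v h7
            cases h8
        right
        by_cases hvX : v ∈ X
        · right
          exact le_antisymm h5 (insert_subset hvX h4)
        · left
          refine le_antisymm ?_ h4
          intro g hg
          rcases mem_insert.1 (h5 hg) with rfl | hg'
          · exact absurd hg hvX
          · exact hg'
      · push Not at hall
        obtain ⟨t, ht, hn⟩ := hall
        have := fst_mem hK hL hf h ht hn hv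
        left; rwa [himg] at this
  · rintro (h | h)
    · left; rwa [himg]
    · right
      refine ⟨1, ?_⟩
      have hX : X ⊆ insert v τ := by
        rcases h with h | h
        · rw [h]; exact subset_insert _ _
        · rw [h]
      intro y hy
      obtain ⟨g, hg, rfl⟩ := mem_map.1 hy
      exact mem_tr.2 ⟨s g, mem_B.2 (Or.inl ⟨g, mem_insert.1 (hX hg), rfl⟩), by rw [one_mul]⟩

theorem card_GG : Fintype.card (GG G) =
    Fintype.card G * (3 ^ (Fintype.card G + Fintype.card G) * Fintype.card G) := by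
  simp [GG, C3, Fintype.card_prod]

theorem card_big : 2 * Fintype.card G + 3 ≤ Fintype.card (GG G) := by
  rw [card_GG]
  have hn : 1 ≤ Fintype.card G := Fintype.card_pos
  generalize Fintype.card G = n at hn
  have h1 : n + n + 1 ≤ 3 ^ (n + n - 1) * 3 := by
    rw [← pow_succ]
    have : n + n - 1 + 1 = n + n := by omega
    rw [this]
    exact Nat.lt_pow_self (by norm_num)
  have h2 : ∀ m, 2 * m + 1 ≤ 3 ^ m := by
    intro m
    induction m with
    | zero => simp
    | succ m ih => rw [pow_succ]; omega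
  have h3 := h2 (n + n)
  have h4 : 3 ^ (n + n) ≤ n * (3 ^ (n + n) * n) := by
    calc 3 ^ (n + n) = 1 * (3 ^ (n + n) * 1) := by ring
      _ ≤ n * (3 ^ (n + n) * n) := Nat.mul_le_mul hn (Nat.mul_le_mul_left _ hn)
  omega

theorem card_B (v : G) (τ : Finset G) : (B v τ).card ≤ 2 * Fintype.card G := by
  unfold B
  refine (card_union_le _ _).trans ?_
  have h1 : ((insert v τ).image (fun g => a v (Sum.inl g))).card ≤ Fintype.card G :=
    card_image_le.trans (card_le_univ _)
  have h2 : ((univ : Finset G).image (fun c => a v (Sum.inr c))).card ≤ Fintype.card G :=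
    card_image_le.trans (card_le_univ _)
  omega

theorem small (hK : Cx K) (hu : univ ∉ K) (X : Finset (GG G)) (hX : X ∈ K' K v τ) :
    3 ≤ Xᶜ.card := by
  rcases hX with h | ⟨γ, h⟩
  · have : ∃ g : G, g ∉ X.image Prod.fst := by
      by_contra hc
      push Not at hc
      apply hu
      have : X.image Prod.fst = univ := by
        ext g; simp only [mem_univ, iff_true]; exact hc g
      rwa [this] at h
    obtain ⟨g, hg⟩ := this
    have hsub : (univ : Finset C3).image (fun u => ((g, fun _ => u, 1) : GG G)) ⊆ Xᶜ := by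
      intro y hy
      obtain ⟨u, _, rfl⟩ := mem_image.1 hy
      rw [mem_compl]
      intro hm
      exact hg (mem_image.2 ⟨_, hm, rfl⟩)
    have hc := card_le_card hsub
    rw [card_image_of_injective] at hc
    · simpa [C3] using hc
    · intro u u' huu
      have := congrFun (congrArg (fun z : GG G => z.2.1) huu) (Sum.inl 1)
      exact this
  · have h1 : X.card ≤ 2 * Fintype.card G :=
      (card_le_card h).trans (card_image_le.trans (card_B v τ))
    have h2 := card_big (G := G)
    rw [card_compl]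
    omega

end Step

theorem P4_EStep_proof : P4_EStep := by
  intro G _ _ _ K L hK hL h0 hu hMv
  obtain ⟨τ, v, hv, h3, _, hτ, _, hf, rfl⟩ := hMv
  refine ⟨GG G, inferInstance, inferInstance, inferInstance, K' K v τ, s, cx_K' hK, linv_K' hL,
    small hK hu, ?_, map_mem_iff hK hL h0 hv h3 hτ hf, red_K' hK hL hv h3 hτ hf⟩
  have h2 := card_big (G := G)
  rw [card_compl, card_map, card_univ]
  omega

end Pool.Agent.Helper61.Ek
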