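import Pool.Agent.Lead.Ek.Defs
import Pool.Agent.Helper22.Evas.Reduction

/-! # From a non-evasive left-invariant complex to the refutation -/

set_option autoImplicit false
set_option linter.unusedSectionVars false

namespace Pool.Agent.Helper61.Ek

open Finset Pool.Agent.Lead.Ek Pool.Agent.Helper22.Evas

theorem depth_of_dep {α : Type} [DecidableEq α] (S : Finset α) :
    ∀ g : (α → Bool) → Bool, (∀ x y : α → Bool, (∀ i ∈ S, x i = y i) → g x = g y) →
      Depth S.card g := by
  induction S using Finset.induction_on with
  | empty => intro g h; exact Depth.const _ _ fun x y => h x y (by simp)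
  | insert a S ha ih =>
    intro g h
    rw [card_insert_of_notMem ha]
    have key : ∀ b : Bool, Depth S.card (fun x => g (Function.update x a b)) := by
      intro b
      refine ih _ fun x y hxy => h _ _ fun i hi => ?_
      by_cases hia : i = a
      · subst hia; simp
      · rw [Function.update_of_ne hia, Function.update_of_ne hia]
        exact hxy i (by rcases mem_insert.1 hi with h | h; exact absurd h hia; exact h)
    exact Depth.node _ _ a (key false) (key true)

theorem ne_nonempty {α : Type} [DecidableEq α] {K : Set (Finset α)} {R : Finset α}
    (h : NE K R) : R.Nonempty := by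
  cases h with
  | irr _ _ x hx _ => exact ⟨x, hx⟩
  | split _ _ x hx _ _ => exact ⟨x, hx⟩

open Classical in
theorem depth_of_ne {α : Type} [DecidableEq α] {K : Set (Finset α)} {R : Finset α} (h : NE K R) :
    Depth (R.card - 1) (fun x : α → Bool => decide (R.filter (fun i => x i = true) ∉ K)) := by
  induction h with
  | irr K R x hx h =>
    rw [← card_erase_of_mem hx]
    refine depth_of_dep _ _ fun y z hyz => ?_
    have e : ∀ y : α → Bool, (R.filter (fun i => y i = true) ∈ K ↔
        (R.erase x).filter (fun i => y i = true) ∈ K) := by
      intro y
      by_cases hy : y x = true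
      · have h1 := h ((R.erase x).filter (fun i => y i = true)) (filter_subset _ _)
        rw [h1]
        have : R.filter (fun i => y i = true) =
            insert x ((R.erase x).filter (fun i => y i = true)) := by
          ext i
          simp only [mem_filter, mem_insert, mem_erase]
          constructor
          · rintro ⟨h1, h2⟩
            by_cases hi : i = x
            · exact Or.inl hi
            · exact Or.inr ⟨⟨hi, h1⟩, h2⟩
          · rintro (rfl | ⟨⟨_, h1⟩, h2⟩)
            · exact ⟨hx, hy⟩
            · exact ⟨h1, h2⟩
        rw [this]
      · have : R.filter (fun i => y i = true) = (R.erase x).filter (fun i => y i = true) := by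
          ext i
          simp only [mem_filter, mem_erase]
          constructor
          · rintro ⟨h1, h2⟩
            exact ⟨⟨fun e => hy (e ▸ h2), h1⟩, h2⟩
          · rintro ⟨⟨_, h1⟩, h2⟩
            exact ⟨h1, h2⟩
        rw [this]
    have e2 : (R.erase x).filter (fun i => y i = true) =
        (R.erase x).filter (fun i => z i = true) := by
      apply filter_congr
      intro i hi
      rw [hyz i hi]
    simp only [e, e2]
  | split K R x hx h0 h1 ih0 ih1 =>
    have hc : R.card - 1 = ((R.erase x).card - 1) + 1 := by
      rw [card_erase_of_mem hx]
      have := (ne_nonempty h0).card_pos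
      rw [card_erase_of_mem hx] at this
      omega
    rw [hc]
    refine Depth.node _ _ x ?_ ?_
    · have : (fun y : α → Bool => decide (R.filter
          (fun i => Function.update y x false i = true) ∉ K)) =
          fun y => decide ((R.erase x).filter (fun i => y i = true) ∉ K) := by
        funext y
        have : R.filter (fun i => Function.update y x false i = true) =
            (R.erase x).filter (fun i => y i = true) := by
          ext i
          simp only [mem_filter, mem_erase]
          by_cases hi : i = x
          · subst hi; simp
          · rw [Function.update_of_ne hi]; simp [hi]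
        rw [this]
      rw [this]; exact ih0
    · have : (fun y : α → Bool => decide (R.filter
          (fun i => Function.update y x true i = true) ∉ K)) =
          fun y => decide ((R.erase x).filter (fun i => y i = true) ∉
            {X : Finset α | insert x X ∈ K}) := by
        funext y
        have : R.filter (fun i => Function.update y x true i = true) =
            insert x ((R.erase x).filter (fun i => y i = true)) := by
          ext i
          simp only [mem_filter, mem_erase, mem_insert]
          by_cases hi : i = x
          · subst hi; simp [hx]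
          · rw [Function.update_of_ne hi]; simp [hi]
        simp only [this, Set.mem_ofPred_eq]
      rw [this]; exact ih1

open Classical in
theorem good_of_inv {G : Type} [Group G] [Fintype G] [DecidableEq G] (K : Set (Finset G))
    (hK : Cx K) (hL : LInv K) (h0 : ∅ ∈ K) (hu : univ ∉ K) (hN : NE K univ) :
    Good (fun x : G → Bool => decide (univ.filter (fun i => x i = true) ∉ K))
      (Fintype.card G - 1) := by
  refine ⟨?_, ?_, ?_, ?_, ?_⟩
  · intro x y hxy
    have hsub : univ.filter (fun i => x i = true) ⊆ univ.filter (fun i => y i = true) := by
      intro i hi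
      rw [mem_filter] at hi ⊢
      refine ⟨hi.1, ?_⟩
      have := hxy i
      rw [hi.2] at this
      exact Bool.eq_true_of_true_le this
    rw [Bool.le_iff_imp]
    intro h
    rw [decide_eq_true_iff] at h ⊢
    exact fun hy => h (hK _ hy _ hsub)
  · rw [decide_eq_false_iff_not, not_not]
    convert h0 using 1
    simp
  · rw [decide_eq_true_iff]
    convert hu using 1
    simp
  · intro i j
    refine ⟨Equiv.mulLeft (j * i⁻¹), by simp, fun x => ?_⟩
    have key : ∀ (g : G) (X : Finset G), X.image (fun y => g * y) ∈ K ↔ X ∈ K := by
      intro g X
      constructor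
      · intro h
        have := hL g⁻¹ _ h
        rw [image_image] at this
        have e : ((fun y => g⁻¹ * y) ∘ fun y => g * y) = id := by funext y; simp
        rwa [e, image_id] at this
      · exact hL g X
    set g := j * i⁻¹
    have e : univ.filter (fun k => x k = true) =
        (univ.filter (fun k => (x ∘ Equiv.mulLeft g) k = true)).image (fun y => g * y) := by
      ext k
      rw [mem_filter, mem_image]
      constructor
      · rintro ⟨-, h⟩
        refine ⟨g⁻¹ * k, mem_filter.2 ⟨mem_univ _, ?_⟩, by simp⟩
        show x (g * (g⁻¹ * k)) = true
        rw [mul_inv_cancel_left]; exact h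
      · rintro ⟨y, hy, rfl⟩
        exact ⟨mem_univ _, (mem_filter.1 hy).2⟩
    have := key g (univ.filter (fun k => (x ∘ Equiv.mulLeft g) k = true))
    rw [← e] at this
    simp only [this]
  · have := depth_of_ne hN
    rwa [card_univ] at this

theorem final_of_NE {G : Type} [Group G] [Fintype G] [DecidableEq G] (K : Set (Finset G))
    (hK : Cx K) (hL : LInv K) (h0 : ∅ ∈ K) (hu : univ ∉ K) (hN : NE K univ) :
    ∃ m : ℕ, 2 ≤ m ∧ ∃ f : (Fin m → Bool) → Bool, Good f (m - 1) := by
  classical
  have h2 : 2 ≤ Fintype.card G := by
    by_contra hc
    have h1 : Fintype.card G ≤ 1 := by omega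
    haveI := Fintype.card_le_one_iff_subsingleton.1 h1
    cases hN with
    | irr _ _ x hx h =>
      have := h ∅ (empty_subset _)
      have e : insert x ∅ = (univ : Finset G) := by
        ext y; simp [Subsingleton.elim y x]
      rw [e] at this
      exact hu (this.1 h0)
    | split _ _ x hx h0' _ =>
      obtain ⟨y, hy⟩ := ne_nonempty h0'
      exact (mem_erase.1 hy).1 (Subsingleton.elim _ _)
  have h := (good_of_inv K hK hL h0 hu hN).transport (Fintype.equivFin G)
  exact ⟨Fintype.card G, h2, _, h⟩

/-- A left-invariant non-evasive nontrivial complex on a finite group refutes weak evasiveness. -/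
theorem refute_of_inv (h : ∃ (G' : Type) (_ : Group G') (_ : Fintype G') (_ : DecidableEq G')
      (K' : Set (Finset G')), Cx K' ∧ LInv K' ∧ ∅ ∈ K' ∧ univ ∉ K' ∧ NE K' univ) :
    ¬ (∀ ε : ℝ, 0 < ε → ∃ N : ℕ, ∀ n : ℕ, N ≤ n →
    ∀ f : (Fin n → Bool) → Bool, Monotone f → (∃ x y, f x ≠ f y) →
      (∀ i j : Fin n, ∃ σ : Equiv.Perm (Fin n), σ i = j ∧
          ∀ x : Fin n → Bool, f (x ∘ σ) = f x) →
      ∀ k : ℕ,
        (∀ P : ℕ → ((Fin n → Bool) → Bool) → Prop,
          (∀ (m : ℕ) (g : (Fin n → Bool) → Bool), (∀ x y, g x = g y) → P m g) →
          (∀ (m : ℕ) (g : (Fin n → Bool) → Bool) (i : Fin n),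
             P m (fun x => g (Function.update x i false)) →
             P m (fun x => g (Function.update x i true)) → P (m + 1) g) →
          P k f) →
        (n : ℝ) ^ (1 - ε) ≤ (k : ℝ)) := by
  obtain ⟨G', _, _, _, K', h1, h2, h3, h4, h5⟩ := h
  obtain ⟨m, hm, f, hf⟩ := final_of_NE K' h1 h2 h3 h4 h5
  exact refute hm hf

end Pool.Agent.Helper61.Ek
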