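import Pool.Agent.Helper83.Ek.N0
import Pool.Agent.Lead.Ek.Assembly

/-! # The group acting on the 13-vertex complex (P9, third copy) -/

set_option autoImplicit false
set_option linter.unusedSectionVars false

namespace Pool.Agent.Helper61.Ek

open Finset Pool.Agent.Lead.Ek Pool.Agent.Helper83.Ek

theorem p_ai (g : Equiv.Perm (Fin 13)) (x : Fin 13) : g (g⁻¹ x) = x := g.apply_symm_apply x

theorem p_ia (g : Equiv.Perm (Fin 13)) (x : Fin 13) : g⁻¹ (g x) = x := g.symm_apply_apply x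

/-- `g` preserves the list of facets. -/
def Pres (g : Equiv.Perm (Fin 13)) : Prop :=
  ∀ F ∈ facetMasks, ∃ F' ∈ facetMasks, ∀ i : Fin 13, Nat.testBit F' (g i).val = Nat.testBit F i.val

instance (g : Equiv.Perm (Fin 13)) : Decidable (Pres g) := by
  unfold Pres; infer_instance

/-- The facets as sets. -/
def fs (F : ℕ) : Finset (Fin 13) := univ.filter fun i => Nat.testBit F i.val = true

theorem pres_iff (g : Equiv.Perm (Fin 13)) : Pres g ↔
    ∀ F ∈ facetMasks, ∃ F' ∈ facetMasks, (fs F).map g.toEmbedding = fs F' := by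
  unfold Pres
  refine forall₂_congr fun F _ => exists_congr fun F' => and_congr_right fun _ => ?_
  constructor
  · intro h
    ext j
    simp only [fs, mem_map, mem_filter, mem_univ, true_and, Equiv.coe_toEmbedding]
    constructor
    · rintro ⟨i, hi, rfl⟩
      rw [h i]; exact hi
    · intro hj
      refine ⟨g.symm j, ?_, by simp⟩
      rw [← h, Equiv.apply_symm_apply]; exact hj
  · intro h i
    have h1 : g i ∈ (fs F).map g.toEmbedding ↔ g i ∈ fs F' := by rw [h]
    simp only [fs, mem_map, mem_filter, mem_univ, true_and, Equiv.coe_toEmbedding,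
      g.injective.eq_iff, exists_eq_right] at h1
    rw [Bool.eq_iff_iff]
    exact h1.symm

/-- The symmetry group. -/
def G1 : Subgroup (Equiv.Perm (Fin 13)) where
  carrier := {g | Pres g ∧ Pres g⁻¹}
  one_mem' := by
    have h : Pres 1 := fun F hF => ⟨F, hF, fun i => rfl⟩
    exact ⟨h, by rwa [inv_one]⟩
  mul_mem' := by
    have key : ∀ {a b : Equiv.Perm (Fin 13)}, Pres a → Pres b → Pres (a * b) := by
      intro a b ha hb F hF
      obtain ⟨F', hF', h'⟩ := hb F hF
      obtain ⟨F'', hF'', h''⟩ := ha F' hF'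
      exact ⟨F'', hF'', fun i => by rw [Equiv.Perm.mul_apply, h'', h']⟩
    rintro a b ⟨ha, ha'⟩ ⟨hb, hb'⟩
    exact ⟨key ha hb, by rw [mul_inv_rev]; exact key hb' ha'⟩
  inv_mem' := by
    rintro a ⟨ha, ha'⟩
    exact ⟨ha', by rwa [inv_inv]⟩

def g1 : Equiv.Perm (Fin 13) where
  toFun := ![1, 2, 3, 4, 0, 10, 8, 7, 9, 5, 6, 11, 12]
  invFun := ![4, 0, 1, 2, 3, 9, 10, 7, 6, 8, 5, 11, 12]
  left_inv := by decide
  right_inv := by decide

def g2 : Equiv.Perm (Fin 13) where
  toFun := ![1, 2, 0, 3, 4, 7, 10, 8, 5, 6, 9, 11, 12]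
  invFun := ![2, 0, 1, 3, 4, 8, 9, 5, 7, 10, 6, 11, 12]
  left_inv := by decide
  right_inv := by decide

def g3 : Equiv.Perm (Fin 13) where
  toFun := ![0, 1, 2, 3, 4, 5, 6, 7, 8, 9, 10, 12, 11]
  invFun := ![0, 1, 2, 3, 4, 5, 6, 7, 8, 9, 10, 12, 11]
  left_inv := by decide
  right_inv := by decide

theorem g1_pres : Pres g1 := by decide +kernel
theorem g1i_pres : Pres g1⁻¹ := by decide +kernel
theorem g2_pres : Pres g2 := by decide +kernel
theorem g2i_pres : Pres g2⁻¹ := by decide +kernel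
theorem g3_pres : Pres g3 := by decide +kernel
theorem g3i_pres : Pres g3⁻¹ := by decide +kernel

/-- One step of the orbit. -/
def stp (F F' : ℕ) (g : Equiv.Perm (Fin 13)) : Bool :=
  (List.finRange 13).all fun i => Nat.testBit F' (g i).val == Nat.testBit F i.val

def gen : ℕ → Equiv.Perm (Fin 13)
  | 0 => g1
  | 1 => g2
  | _ => g3

theorem gen_mem (k : ℕ) : gen k ∈ G1 := by
  match k with
  | 0 => exact ⟨g1_pres, g1i_pres⟩
  | 1 => exact ⟨g2_pres, g2i_pres⟩
  | (n + 2) => exact ⟨g3_pres, g3i_pres⟩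

/-- The orbit of the first facet: `(mask, parent, generator)`. -/
def orb : List (ℕ × ℕ × ℕ) :=
  [(3089, 2104, 0), (2200, 2104, 1), (4152, 2104, 2), (2115, 3089, 0), (2578, 3089, 1),
   (5137, 3089, 2), (2193, 2200, 0), (2328, 2200, 1), (4248, 2200, 2), (2310, 2115, 0),
   (3078, 2115, 1), (4163, 2115, 2), (2085, 2578, 0), (2132, 2578, 1), (4626, 2578, 2),
   (2179, 2193, 0), (2322, 2193, 1), (4241, 2193, 2), (2577, 2328, 0), (4376, 2328, 2),
   (2572, 2310, 0), (4358, 2310, 2), (2124, 3078, 0), (2565, 3078, 1), (5126, 3078, 2),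
   (3082, 2085, 0), (4133, 2085, 2), (2313, 2132, 0), (4180, 2132, 2), (2182, 2179, 0),
   (4227, 2179, 2), (2100, 2322, 1), (4370, 2322, 2), (2083, 2577, 0), (2130, 2577, 1),
   (4625, 2577, 2), (2121, 2572, 1), (4620, 2572, 2), (3081, 2124, 1), (4172, 2124, 2),
   (2090, 2565, 0), (4613, 2565, 2), (5130, 3082, 2), (4361, 2313, 2), (2188, 2182, 0),
   (2309, 2182, 1), (4230, 2182, 2), (4148, 2100, 2), (4131, 2083, 2), (3092, 2130, 1),
   (4178, 2130, 2), (4169, 2121, 2), (2570, 3081, 1), (5129, 3081, 2), (4138, 2090, 2),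
   (4236, 2188, 2), (4357, 2309, 2), (5140, 3092, 2), (4618, 2570, 2)]

/-- All entries of `l` have a parent in `seen` or earlier in `l`. -/
def chkOrb : List ℕ → List (ℕ × ℕ × ℕ) → Bool
  | _, [] => true
  | seen, (F, P, k) :: l => seen.contains P && stp P F (gen k) && chkOrb (F :: seen) l

theorem stp_spec {F F' : ℕ} {g : Equiv.Perm (Fin 13)} (h : stp F F' g = true) :
    ∀ i : Fin 13, Nat.testBit F' (g i).val = Nat.testBit F i.val := by
  intro i
  unfold stp at h
  rw [List.all_eq_true] at h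
  have := h i (List.mem_finRange i)
  simpa using this

/-- Reachability of a facet by a group element. -/
def Reach (F : ℕ) : Prop :=
  ∃ g ∈ G1, ∀ i : Fin 13, Nat.testBit F (g i).val = Nat.testBit 2104 i.val

theorem chkOrb_spec : ∀ (l : List (ℕ × ℕ × ℕ)) (seen : List ℕ), (∀ F ∈ seen, Reach F) →
    chkOrb seen l = true → ∀ e ∈ l, Reach e.1 := by
  intro l
  induction l with
  | nil => intro _ _ _ e he; cases he
  | cons a l ih =>
    intro seen hs h e he
    obtain ⟨F, P, k⟩ := a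
    simp only [chkOrb, Bool.and_eq_true, List.contains_eq_mem, decide_eq_true_eq] at h
    obtain ⟨⟨h1, h2⟩, h3⟩ := h
    have hF : Reach F := by
      obtain ⟨g, hg, hg'⟩ := hs P h1
      refine ⟨gen k * g, G1.mul_mem (gen_mem k) hg, fun i => ?_⟩
      rw [Equiv.Perm.mul_apply, stp_spec h2, hg']
    rcases List.mem_cons.1 he with rfl | he
    · exact hF
    · refine ih (F :: seen) (fun F' hF' => ?_) h3 e he
      rcases List.mem_cons.1 hF' with rfl | h
      · exact hF
      · exact hs F' h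

theorem reach_all : ∀ F ∈ facetMasks, Reach F := by
  have h0 : Reach 2104 := ⟨1, G1.one_mem, fun i => rfl⟩
  have h1 : ∀ e ∈ orb, Reach e.1 := chkOrb_spec orb [2104] (by
    intro F hF
    rw [List.mem_singleton] at hF
    rw [hF]; exact h0) (by decide +kernel)
  have h2 : ∀ F ∈ facetMasks, F = 2104 ∨ F ∈ orb.map (fun e => e.1) := by decide +kernel
  intro F hF
  rcases h2 F hF with rfl | h
  · exact h0
  · obtain ⟨e, he, rfl⟩ := List.mem_map.1 h
    exact h1 e he

/-- The relation: `y` lies in the translate `g T0` of the first facet. -/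
def rel (g : G1) (y : Fin 13) : Prop := Nat.testBit 2104 ((g : Equiv.Perm (Fin 13))⁻¹ y).val = true

theorem dowR_rel : dowR rel = N0 := by
  ext T
  show (∃ g : G1, ∀ b ∈ T, rel g b) ↔ ∃ F ∈ facetMasks, ∀ i ∈ T, Nat.testBit F i.val = true
  constructor
  · rintro ⟨⟨g, hg⟩, h⟩
    obtain ⟨F, hF, h'⟩ := hg.1 2104 (by decide)
    refine ⟨F, hF, fun i hi => ?_⟩
    have h1 := h i hi
    have h2 := h' (g⁻¹ i)
    rw [p_ai] at h2
    rw [h2]; exact h1
  · rintro ⟨F, hF, h⟩
    obtain ⟨g, hg, h'⟩ := reach_all F hF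
    refine ⟨⟨g, hg⟩, fun i hi => ?_⟩
    show Nat.testBit 2104 (g⁻¹ i).val = true
    rw [← h' (g⁻¹ i), p_ai]
    exact h i hi

theorem linv_rel [DecidableEq G1] : LInv (dowL rel) := by
  rintro g X ⟨b, hb⟩
  refine ⟨(g : Equiv.Perm (Fin 13)) b, ?_⟩
  intro a ha
  obtain ⟨x, hx, rfl⟩ := mem_image.1 ha
  have := hb x hx
  show Nat.testBit 2104 (((g * x : G1) : Equiv.Perm (Fin 13))⁻¹ ((g : Equiv.Perm (Fin 13)) b)).val
    = true
  have e : ((g * x : G1) : Equiv.Perm (Fin 13))⁻¹ ((g : Equiv.Perm (Fin 13)) b) =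
      (x : Equiv.Perm (Fin 13))⁻¹ b := by
    rw [Subgroup.coe_mul, mul_inv_rev, Equiv.Perm.mul_apply, p_ia]
  rw [e]; exact this

theorem univ_rel [Fintype G1] : univ ∉ dowL rel := by
  rintro ⟨b, hb⟩
  have h : ∀ b : Fin 13, ∃ F ∈ facetMasks, Nat.testBit F b.val = false := by decide +kernel
  obtain ⟨F, hF, hFb⟩ := h b
  obtain ⟨g, hg, h'⟩ := reach_all F hF
  have h1 := hb ⟨g, hg⟩ (mem_univ _)
  have h2 := h' (g⁻¹ b)
  rw [p_ai, hFb] at h2
  have h3 : Nat.testBit 2104 (g⁻¹ b).val = true := h1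
  rw [← h2] at h3
  cases h3

end Pool.Agent.Helper61.Ek
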