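import Pool.Agent.Helper61.Ek.Inv
import Pool.Agent.Helper61.Ek.Fin
import Pool.Agent.Helper61.Ek.Grp
import Pool.Agent.Helper83.Ek.Cert

/-! # Assembly: the weak evasiveness conjecture for monotone transitive functions is false -/

set_option autoImplicit false

namespace Pool.Agent.Helper61.Ek

open Finset Pool.Agent.Lead.Ek

theorem exists_ne_complex :
    ∃ (G' : Type) (_ : Group G') (_ : Fintype G') (_ : DecidableEq G') (K' : Set (Finset G')),
      Cx K' ∧ LInv K' ∧ ∅ ∈ K' ∧ univ ∉ K' ∧ NE K' univ := by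
  classical
  haveI : Fintype G1 := Fintype.ofFinite _
  refine exists_inv (G := G1) (B := Fin 13) rel linv_rel univ_rel 1 ?_ ?_
  · rw [dowR_rel]
    exact Pool.Agent.Helper83.Ek.alt_N0
  · rintro X ⟨a, ha⟩ Y hY
    exact ⟨a, fun b hb => ha b (hY hb)⟩

theorem final : ¬ (∀ ε : ℝ, 0 < ε → ∃ N : ℕ, ∀ n : ℕ, N ≤ n →
    ∀ f : (Fin n → Bool) → Bool, Monotone f → (∃ x y, f x ≠ f y) →
      (∀ i j : Fin n, ∃ σ : Equiv.Perm (Fin n), σ i = j ∧
          ∀ x : Fin n → Bool, f (x ∘ σ) = f x) →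
      ∀ k : ℕ,
        (∀ P : ℕ → ((Fin n → Bool) → Bool) → Prop,
          (∀ (m : ℕ) (g : (Fin n → Bool) → Bool), (∀ x y, g x = g y) → P m g) →
          (∀ (m : ℕ) (g : (Fin n → Bool) → Bool) (i : Fin n),
             P m (fun x => g (Function.update x i false)) →
             P m (fun x => g (Function.update x i true)) → P (m + 1) g) →
          P k f) →
        (n : ℝ) ^ (1 - ε) ≤ (k : ℝ)) :=
  refute_of_inv exists_ne_complex

end Pool.Agent.Helper61.Ek
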