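import Pool.Agent.Lead.Ek.Phase
import Pool.Agent.Helper95.Ek.P1

/-! # P3: duality and transport (second copy) -/

set_option autoImplicit false
set_option linter.unusedSectionVars false

namespace Pool.Agent.Helper61.Ek

open Finset Pool.Agent.Lead.Ek

section

variable {α β : Type} [DecidableEq α] [DecidableEq β] [Fintype α] [Fintype β]

theorem p3_cx_mv {a b : ℕ} {K L : Set (Finset α)} (hK : Cx K) (h : Mv a b K L) : Cx L := by
  obtain ⟨τ, v, hv, _, _, hτ, hvτ, hf, rfl⟩ := h
  have key : ∀ Y : Finset α, Y ⊆ insert v τ → Y ∈ K ∪ {τ, insert v τ} := by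
    intro Y hY
    by_cases hall : τ ⊆ Y
    · by_cases hvY : v ∈ Y
      · right; right
        exact le_antisymm hY (insert_subset hvY hall)
      · right; left
        refine le_antisymm (fun y hy => ?_) hall
        rcases mem_insert.1 (hY hy) with rfl | h
        · exact absurd hy hvY
        · exact h
    · left
      obtain ⟨t, ht, htY⟩ := not_subset.1 hall
      refine hK _ (hf t ht) _ fun y hy => ?_
      rcases mem_insert.1 (hY hy) with rfl | h
      · exact mem_insert_self _ _
      · exact mem_insert_of_mem (mem_erase.2 ⟨fun e => htY (e ▸ hy), h⟩)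
  rintro X (h | rfl | rfl) Y hY
  · exact Or.inl (hK X h Y hY)
  · exact key Y (hY.trans (subset_insert _ _))
  · exact key Y hY

theorem p3_cx : P3_cx := by
  intro α _ _ a b K L hK h
  induction h with
  | refl => exact hK
  | tail _ h2 ih => exact p3_cx_mv ih h2

theorem p3_cxDual : P3_cxDual := by
  intro α _ _ K hK
  exact cx_dual hK

theorem p3_dual_mv {a b : ℕ} {K L : Set (Finset α)} (hK : Cx K) (h : Mv a b K L) :
    Mv b a (dual L) (dual K) := by
  obtain ⟨τ, v, hv, h1, h2, hτ, hvτ, hf, rfl⟩ := h
  have e1 : insert v (insert v τ)ᶜ = τᶜ := by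
    ext y
    simp only [mem_insert, mem_compl]
    by_cases hy : y = v
    · subst hy; simp [hv]
    · simp [hy]
  refine ⟨(insert v τ)ᶜ, v, ?_, h2, ?_, ?_, ?_, ?_, ?_⟩
  · simp
  · rw [e1, compl_compl]; exact h1
  · simp [dual]
  · rw [e1]; simp [dual]
  · intro t ht
    rw [mem_compl, mem_insert, not_or] at ht
    have e2 : (insert v ((insert v τ)ᶜ.erase t))ᶜ = insert t τ := by
      ext y
      simp only [mem_insert, mem_compl, mem_erase]
      by_cases hy : y = v
      · subst hy
        have : ¬ (y = t) := fun h => ht.1 h.symm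
        simp [hv, this]
      · by_cases hy' : y = t
        · subst hy'; simp [hy]
        · simp [hy, hy']
    show (insert v ((insert v τ)ᶜ.erase t))ᶜ ∉ K ∪ {τ, insert v τ}
    rw [e2]
    rintro (h | h | h)
    · exact hτ (hK _ h _ (subset_insert _ _))
    · have : t ∈ τ := by rw [← h]; exact mem_insert_self _ _
      exact ht.2 this
    · have : t ∈ insert v τ := by
        have h' : insert t τ = insert v τ := h
        rw [← h']; exact mem_insert_self _ _
      rcases mem_insert.1 this with h | h
      · exact ht.1 h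
      · exact ht.2 h
  · ext X
    have c1 : X = (insert v τ)ᶜ ↔ Xᶜ = insert v τ :=
      ⟨fun h => by rw [h, compl_compl], fun h => by rw [← h, compl_compl]⟩
    have c2 : X = insert v (insert v τ)ᶜ ↔ Xᶜ = τ := by
      rw [e1]
      exact ⟨fun h => by rw [h, compl_compl], fun h => by rw [← h, compl_compl]⟩
    show Xᶜ ∉ K ↔ (Xᶜ ∉ K ∪ {τ, insert v τ} ∨ X = (insert v τ)ᶜ ∨ X = insert v (insert v τ)ᶜ)
    rw [c1, c2]
    simp only [Set.mem_union, Set.mem_insert_iff, Set.mem_singleton_iff]
    constructor
    · intro h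
      by_cases h3 : Xᶜ = insert v τ
      · exact Or.inr (Or.inl h3)
      · by_cases h4 : Xᶜ = τ
        · exact Or.inr (Or.inr h4)
        · left; rintro (h | h | h)
          · contradiction
          · exact h4 h
          · exact h3 h
    · rintro (h | h | h)
      · exact fun h' => h (Or.inl h')
      · rw [h]; exact hvτ
      · rw [h]; exact hτ

theorem p3_dualMv : P3_dualMv := by
  intro α _ _ a b K L hK h
  induction h with
  | refl => exact Relation.ReflTransGen.refl
  | tail h1 h2 ih =>
    exact Relation.ReflTransGen.head (p3_dual_mv (p3_cx a b _ _ hK h1) h2) ih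

theorem preimage_map_eq (s : α ↪ β) (Y : Finset α) :
    (Y.map s).preimage s s.injective.injOn = Y := by
  ext y
  simp

theorem p3_dualPush : P3_dualPush := by
  intro α β _ _ _ _ s K
  ext X
  show Xᶜ ∉ push s K ↔ ((univ.map s)ᶜ ⊆ X → (X.preimage s s.injective.injOn)ᶜ ∉ K)
  have key : Xᶜ ∈ push s K ↔ ((univ.map s)ᶜ ⊆ X ∧ (X.preimage s s.injective.injOn)ᶜ ∈ K) := by
    constructor
    · rintro ⟨Y, hY, he⟩
      have hX : X = (Y.map s)ᶜ := by rw [← he, compl_compl]
      constructor
      · rw [hX]
        exact compl_subset_compl.2 (map_subset_map.2 (subset_univ _))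
      · have : (X.preimage s s.injective.injOn)ᶜ = Y := by
          ext y
          rw [mem_compl, mem_preimage, hX, mem_compl, mem_map' s, not_not]
        rwa [this]
    · rintro ⟨h1, h2⟩
      refine ⟨_, h2, ?_⟩
      ext x
      rw [mem_compl, mem_map]
      constructor
      · intro hx
        have : x ∈ univ.map s := by
          by_contra hc
          exact hx (h1 (mem_compl.2 hc))
        obtain ⟨y, _, rfl⟩ := mem_map.1 this
        exact ⟨y, by rw [mem_compl, mem_preimage]; exact hx, rfl⟩
      · rintro ⟨y, hy, rfl⟩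
        rw [mem_compl, mem_preimage] at hy
        exact hy
  rw [key]
  tauto

theorem p3_dualPlus : P3_dualPlus := by
  intro α β _ _ _ _ s K
  have h := p3_dualPush s (dual K)
  rw [dual_dual] at h
  rw [← h, dual_dual]

theorem p3_push_mv (s : α ↪ β) {a b : ℕ} {K L : Set (Finset α)} (h : Mv a b K L) :
    Mv a (b + (univ.map s)ᶜ.card) (push s K) (push s L) := by
  obtain ⟨τ, v, hv, h1, h2, hτ, hvτ, hf, rfl⟩ := h
  refine ⟨τ.map s, s v, ?_, ?_, ?_, ?_, ?_, ?_, ?_⟩
  · rwa [mem_map' s]
  · rwa [card_map]
  · rw [← map_insert]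
    have hd : Disjoint ((insert v τ)ᶜ.map s) (univ.map s)ᶜ := by
      rw [disjoint_left]
      intro x hx hx'
      obtain ⟨y, _, rfl⟩ := mem_map.1 hx
      exact (mem_compl.1 hx') (mem_map_of_mem _ (mem_univ _))
    have hsub : (insert v τ)ᶜ.map s ∪ (univ.map s)ᶜ ⊆ ((insert v τ).map s)ᶜ := by
      intro x hx
      rw [mem_compl]
      intro hc
      obtain ⟨y, hy, rfl⟩ := mem_map.1 hc
      rcases mem_union.1 hx with h | h
      · rw [mem_map' s, mem_compl] at h
        exact h hy
      · exact (mem_compl.1 h) (mem_map_of_mem _ (mem_univ _))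
    have := card_le_card hsub
    rw [card_union_of_disjoint hd, card_map] at this
    omega
  · rintro ⟨Y, hY, he⟩
    rw [map_inj] at he
    exact hτ (he ▸ hY)
  · rintro ⟨Y, hY, he⟩
    rw [← map_insert, map_inj] at he
    exact hvτ (he ▸ hY)
  · intro t ht
    obtain ⟨u, hu, rfl⟩ := mem_map.1 ht
    exact ⟨_, hf u hu, by rw [← map_erase, ← map_insert]⟩
  · ext X
    constructor
    · rintro ⟨Y, (hY | rfl | rfl), rfl⟩
      · exact Or.inl ⟨Y, hY, rfl⟩
      · exact Or.inr (Or.inl rfl)
      · exact Or.inr (Or.inr (by rw [map_insert]; rfl))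
    · rintro (⟨Y, hY, rfl⟩ | rfl | rfl)
      · exact ⟨Y, Or.inl hY, rfl⟩
      · exact ⟨τ, Or.inr (Or.inl rfl), rfl⟩
      · exact ⟨insert v τ, Or.inr (Or.inr rfl), by rw [map_insert]⟩

theorem p3_pushMv : P3_pushMv := by
  intro α β _ _ _ _ s a b K L h
  induction h with
  | refl => exact Relation.ReflTransGen.refl
  | tail _ h2 ih => exact ih.tail (p3_push_mv s h2)

theorem preimage_union (s : α ↪ β) (τ : Finset α) :
    (τ.map s ∪ (univ.map s)ᶜ).preimage s s.injective.injOn = τ := by
  ext y
  rw [mem_preimage, mem_union, mem_map' s, mem_compl]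
  constructor
  · rintro (h | h)
    · exact h
    · exact absurd (mem_map_of_mem _ (mem_univ _)) h
  · exact Or.inl

theorem p3_plus_mv (s : α ↪ β) {a b : ℕ} {K L : Set (Finset α)} (h : Mv a b K L) :
    Mv (a + (univ.map s)ᶜ.card) b (plus s K) (plus s L) := by
  obtain ⟨τ, v, hv, h1, h2, hτ, hvτ, hf, rfl⟩ := h
  have ei : ∀ X : Finset α, insert (s v) (X.map s ∪ (univ.map s)ᶜ) =
      (insert v X).map s ∪ (univ.map s)ᶜ := by
    intro X
    rw [map_insert, insert_union]
  have hmem : ∀ (K : Set (Finset α)) (X : Finset α),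
      X.map s ∪ (univ.map s)ᶜ ∈ plus s K ↔ X ∈ K := by
    intro K X
    show (_ → _ ∈ K) ↔ _
    rw [preimage_union]
    exact ⟨fun h => h subset_union_right, fun h _ => h⟩
  have hd : Disjoint (τ.map s) (univ.map s)ᶜ := by
    rw [disjoint_left]
    intro x hx hx'
    obtain ⟨y, _, rfl⟩ := mem_map.1 hx
    exact (mem_compl.1 hx') (mem_map_of_mem _ (mem_univ _))
  refine ⟨τ.map s ∪ (univ.map s)ᶜ, s v, ?_, ?_, ?_, ?_, ?_, ?_, ?_⟩
  · rw [mem_union, mem_map' s, mem_compl]
    rintro (h | h)
    · exact hv h
    · exact h (mem_map_of_mem _ (mem_univ _))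
  · rw [card_union_of_disjoint hd, card_map]; omega
  · rw [ei]
    have hsub : (insert v τ)ᶜ.map s ⊆ ((insert v τ).map s ∪ (univ.map s)ᶜ)ᶜ := by
      intro x hx
      obtain ⟨y, hy, rfl⟩ := mem_map.1 hx
      rw [mem_compl, mem_union, mem_map' s, mem_compl]
      rintro (h | h)
      · exact (mem_compl.1 hy) h
      · exact h (mem_map_of_mem _ (mem_univ _))
    have := card_le_card hsub
    rw [card_map] at this
    omega
  · rw [hmem]; exact hτ
  · rw [ei, hmem]; exact hvτ
  · intro t ht
    rcases mem_union.1 ht with h | h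
    · obtain ⟨u, hu, rfl⟩ := mem_map.1 h
      have : (τ.map s ∪ (univ.map s)ᶜ).erase (s u) = (τ.erase u).map s ∪ (univ.map s)ᶜ := by
        rw [erase_union_distrib, ← map_erase]
        congr 1
        rw [erase_eq_of_notMem]
        rw [mem_compl, not_not]
        exact mem_map_of_mem _ (mem_univ _)
      rw [this, ei, hmem]
      exact hf u hu
    · intro hc
      exfalso
      have := hc h
      rw [mem_insert, mem_erase] at this
      rcases this with h3 | h3
      · rw [h3] at h
        exact (mem_compl.1 h) (mem_map_of_mem _ (mem_univ _))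
      · exact h3.1 rfl
  · ext X
    have e3 : ∀ Y : Finset α, (univ.map s)ᶜ ⊆ X → (X.preimage s s.injective.injOn = Y ↔
        X = Y.map s ∪ (univ.map s)ᶜ) := by
      intro Y hX
      constructor
      · rintro rfl
        ext x
        rw [mem_union, mem_map, mem_compl]
        constructor
        · intro hx
          by_cases hc : x ∈ univ.map s
          · obtain ⟨y, _, rfl⟩ := mem_map.1 hc
            exact Or.inl ⟨y, by rw [mem_preimage]; exact hx, rfl⟩
          · exact Or.inr hc
        · rintro (⟨y, hy, rfl⟩ | h)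
          · rw [mem_preimage] at hy; exact hy
          · exact hX (mem_compl.2 h)
      · rintro rfl
        exact preimage_union s Y
    constructor
    · intro h
      by_cases hX : (univ.map s)ᶜ ⊆ X
      · rcases h hX with h | h | h
        · exact Or.inl fun _ => h
        · exact Or.inr (Or.inl ((e3 _ hX).1 h))
        · right; right
          rw [ei]
          exact (e3 _ hX).1 h
      · exact Or.inl fun h' => absurd h' hX
    · rintro (h | h | h) hX
      · exact Or.inl (h hX)
      · exact Or.inr (Or.inl ((e3 _ hX).2 h))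
      · right; right
        refine (e3 _ hX).2 ?_
        rw [← ei]; exact h

theorem p3_plusMv : P3_plusMv := by
  intro α β _ _ _ _ s a b K L h
  induction h with
  | refl => exact Relation.ReflTransGen.refl
  | tail _ h2 ih => exact ih.tail (p3_plus_mv s h2)

/-- Elements outside the image are deleted first. -/
theorem ne_of_push (s : α ↪ β) (K : Set (Finset α)) (hNE : NE K univ) :
    ∀ (n : ℕ) (R : Finset β), (R \ univ.map s).card = n → univ.map s ⊆ R →
      NE (push s K) R := by
  intro n
  induction n with
  | zero =>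
    intro R hc hR
    have : R = univ.map s := by
      apply le_antisymm _ hR
      rw [card_eq_zero, sdiff_eq_empty_iff_subset] at hc
      exact hc
    rw [this]
    refine Pool.Agent.Helper95.Ek.map s K (push s K) univ ?_ hNE
    intro X _
    constructor
    · rintro ⟨Y, hY, he⟩
      rwa [map_inj.1 he]
    · intro h; exact ⟨X, h, rfl⟩
  | succ n ih =>
    intro R hc hR
    have hne : (R \ univ.map s).Nonempty := by
      rw [← card_pos]; omega
    obtain ⟨x, hx⟩ := hne
    rw [mem_sdiff] at hx
    have hR' : univ.map s ⊆ R.erase x := fun y hy => mem_erase.2 ⟨fun e => hx.2 (e ▸ hy), hR hy⟩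
    refine NE.split _ R x hx.1 (ih _ ?_ hR') ?_
    · have : (R.erase x) \ univ.map s = (R \ univ.map s).erase x := by
        ext y; simp only [mem_sdiff, mem_erase]; tauto
      rw [this, card_erase_of_mem (mem_sdiff.2 hx), hc]
      rfl
    · -- the link is void; some vertex is irrelevant
      have hno : ∀ X : Finset β, insert x X ∉ push s K := by
        rintro X ⟨Y, _, he⟩
        apply hx.2
        have : x ∈ Y.map s := by rw [← he]; exact mem_insert_self _ _
        exact map_subset_map.2 (subset_univ _) this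
      have hα : ∃ y : α, True := by
        cases hNE with
        | irr _ _ y _ _ => exact ⟨y, trivial⟩
        | split _ _ y _ _ _ => exact ⟨y, trivial⟩
      obtain ⟨y, _⟩ := hα
      refine NE.irr _ _ (s y) (hR' (mem_map_of_mem _ (mem_univ _))) fun X _ => ?_
      exact ⟨fun h => absurd h (hno X), fun h => absurd h (hno _)⟩

theorem p3_pushNE : P3_pushNE := by
  intro α β _ _ _ _ s K h
  exact ne_of_push s K h _ univ rfl (subset_univ _)

theorem p3_plusNE : P3_plusNE := by
  intro α β _ _ _ _ s K h
  have h1 := p3_pushNE s _ (Pool.Agent.Helper95.Ek.dual K h)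
  have h2 := Pool.Agent.Helper95.Ek.dual _ h1
  rw [p3_dualPush, dual_dual] at h2
  exact h2

theorem p3_alt : P3_alt := by
  intro α β _ _ _ _ s n
  induction n with
  | zero =>
    intro K h
    cases h with
    | zero _ h => exact ⟨Alt.zero _ (p3_pushNE s K h), Alt.zero _ (p3_plusNE s K h)⟩
  | succ n ih =>
    intro K h
    cases h with
    | succ _ _ L h h' =>
      have h2 := ih _ h'
      constructor
      · refine Alt.succ n _ (push s L) (mvStar_mono le_rfl (Nat.zero_le _)
          (p3_pushMv s 0 0 K L h)) ?_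
        rw [p3_dualPush]; exact h2.2
      · refine Alt.succ n _ (plus s L) (mvStar_mono (Nat.zero_le _) le_rfl
          (p3_plusMv s 0 0 K L h)) ?_
        rw [p3_dualPlus]; exact h2.1

end

end Pool.Agent.Helper61.Ek
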