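import Pool.Agent.Lead.Ek.Assembly
import Pool.Agent.Helper61.Ek.EPhase
import Pool.Agent.Helper61.Ek.P3
import Pool.Agent.Helper58.Ek.Moves
import Pool.Agent.Helper69.Ek.Dowker
import Pool.Agent.Helper93.Ek.Blowup
import Pool.Agent.Helper95.Ek.P1

/-! # The main theorem on invariant non-evasive complexes, without hypotheses -/

set_option autoImplicit false

namespace Pool.Agent.Helper61.Ek

open Finset Pool.Agent.Lead.Ek

theorem p5_ephase : P5_EPhase := P5_EPhase_of P4_EStep_proof Pool.Agent.Helper93.Ek.blowup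

theorem p6_main : P6_main :=
  phase_main Pool.Agent.Helper95.Ek.map Pool.Agent.Helper95.Ek.redNE Pool.Agent.Helper95.Ek.dual
    Pool.Agent.Helper58.Ek.redMoves p3_cx p3_dualMv p3_dualPush p3_plusMv p3_alt p5_ephase

theorem exists_inv {G B : Type} [Group G] [Fintype G] [DecidableEq G] [Fintype B]
    [DecidableEq B] [Nonempty B]
    (r : G → B → Prop) (hI : LInv (dowL r)) (hu : univ ∉ dowL r) (n : ℕ)
    (hn : Alt n (dowR r)) (hRcx : Cx (dowR r)) :
    ∃ (G' : Type) (_ : Group G') (_ : Fintype G') (_ : DecidableEq G') (K' : Set (Finset G')),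
      Cx K' ∧ LInv K' ∧ ∅ ∈ K' ∧ univ ∉ K' ∧ NE K' univ :=
  exists_invariant_NE p6_main Pool.Agent.Helper58.Ek.redMoves p3_dualMv p3_alt
    Pool.Agent.Helper93.Ek.blowup Pool.Agent.Helper69.Ek.dowker r hI hu n hn hRcx

end Pool.Agent.Helper61.Ek
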